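import Pool.Agent.Q123.DHJ.Majority

/-!
Progression-free subsets of `F_p ^ n` closed under coordinatewise operations.
-/

set_option autoImplicit false
set_option linter.unusedSectionVars false

open Finset

namespace Q123.DHJ

/-- no `k`-term progression with nonzero difference -/
def APF (k : ℕ) {V : Type} [AddCommGroup V] (A : Finset V) : Prop :=
  ∀ x y : V, (∀ j : ℕ, j < k → x + j • y ∈ A) → y = 0

variable {n : ℕ}

/-! ### Majority operations over `F_3` -/

lemma rb3 : ∀ x y z : ZMod 3, Rb x y z → x + 1 • (y - x) = y ∧ x + 2 • (y - x) = z := by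
  unfold Rb
  decide

lemma cap_of_apf (A : Finset (Fin n → ZMod 3)) (h : APF 3 A) : Cap (D := ZMod 3) A := by
  intro x hx y hy z hz hxyz
  have h1 : y - x = 0 := by
    apply h x (y - x)
    intro j hj
    have hj' : j = 0 ∨ j = 1 ∨ j = 2 := by omega
    rcases hj' with rfl | rfl | rfl
    · simpa using hx
    · have : x + 1 • (y - x) = y := by rw [one_smul]; abel
      rw [this]
      exact hy
    · have : x + 2 • (y - x) = z := by
        ext i
        rcases hxyz i with ⟨h2, h3⟩ | h2
        · simp [Pi.add_apply, Pi.sub_apply, h2, h3]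
        · exact (rb3 _ _ _ h2).2
      rw [this]
      exact hz
  rw [sub_eq_zero] at h1
  exact h1.symm

theorem majority_upper {m : Fin n → ZMod 3 → ZMod 3 → ZMod 3 → ZMod 3} (hm : ∀ i, Maj (m i))
    (A : Finset (Fin n → ZMod 3)) (h1 : OpClosed m A) (h2 : APF 3 A) : A.card ≤ 2 ^ n := by
  have := majority (ι := Fin n) (m := m) hm A h1 (cap_of_apf A h2)
  rwa [Fintype.card_fin] at this

lemma two3 : ∀ x y : ZMod 3, (x = 0 ∨ x = 1) → (x + 1 • y = 0 ∨ x + 1 • y = 1) →
    (x + 2 • y = 0 ∨ x + 2 • y = 1) → y = 0 := by decide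

theorem majority_lower {m : Fin n → ZMod 3 → ZMod 3 → ZMod 3 → ZMod 3} (hm : ∀ i, Maj (m i)) :
    ∃ A : Finset (Fin n → ZMod 3), OpClosed m A ∧ APF 3 A ∧ A.card = 2 ^ n := by
  refine ⟨Fintype.piFinset fun _ => {0, 1}, ?_, ?_, ?_⟩
  · intro x hx y hy z hz
    rw [Fintype.mem_piFinset] at hx hy hz ⊢
    intro i
    have hx := hx i
    have hy := hy i
    have hz := hz i
    rw [mem_insert, mem_singleton] at hx hy hz ⊢
    rcases hx with hx | hx <;> rcases hy with hy | hy <;> rcases hz with hz | hz <;>
      rw [hx, hy, hz] <;> first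
        | (rw [(hm i _ _).1]; simp)
        | (rw [(hm i _ _).2.1]; simp)
        | (rw [(hm i _ _).2.2]; simp)
  · intro x y hxy
    ext i
    have h0 := hxy 0 (by norm_num)
    have h1 := hxy 1 (by norm_num)
    have h2 := hxy 2 (by norm_num)
    rw [Fintype.mem_piFinset] at h0 h1 h2
    have h0 := h0 i
    have h1 := h1 i
    have h2 := h2 i
    rw [mem_insert, mem_singleton] at h0 h1 h2
    refine two3 (x i) (y i) ?_ h1 h2
    simpa using h0
  · rw [Fintype.card_piFinset]
    simp

/-! ### Flat semilattices -/

/-- the flat semilattice operation with least element `z` -/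
def flat {D : Type*} [DecidableEq D] (z x y : D) : D := if x = y then x else z

/-- closed under the flat semilattice operation with least element `z i` in the coordinate `i` -/
def FlatClosed {p : ℕ} (z : Fin n → ZMod p) (A : Finset (Fin n → ZMod p)) : Prop :=
  ∀ x ∈ A, ∀ y ∈ A, (fun i => flat (z i) (x i) (y i)) ∈ A

theorem flat_upper {p : ℕ} [hp : Fact p.Prime] (z : Fin n → ZMod p)
    (A : Finset (Fin n → ZMod p)) (h1 : FlatClosed z A) (h2 : APF 3 A) :
    A.card ≤ (p / 2 + 1) ^ n := by
  classical
  have : NeZero p := ⟨hp.out.ne_zero⟩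
  let f : (Fin n → ZMod p) → Fin n → Fin (p / 2 + 1) := fun x i =>
    ⟨(x i - z i).valMinAbs.natAbs, Nat.lt_succ_of_le (ZMod.natAbs_valMinAbs_le _)⟩
  have hinj : Set.InjOn f (A : Set (Fin n → ZMod p)) := by
    intro x hx y hy hxy
    have hx : x ∈ A := hx
    have hy : y ∈ A := hy
    have hpm : ∀ i, x i - z i = y i - z i ∨ x i - z i = -(y i - z i) := by
      intro i
      have h3 : (x i - z i).valMinAbs.natAbs = (y i - z i).valMinAbs.natAbs := by
        have := congrFun hxy i
        exact congrArg Fin.val this
      rcases Int.natAbs_eq_natAbs_iff.1 h3 with h4 | h4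
      · left
        rw [← ZMod.coe_valMinAbs (x i - z i), h4, ZMod.coe_valMinAbs]
      · right
        rw [← ZMod.coe_valMinAbs (x i - z i), h4, Int.cast_neg, ZMod.coe_valMinAbs]
    set w : Fin n → ZMod p := fun i => flat (z i) (x i) (y i) with hw
    have hwA : w ∈ A := h1 x hx y hy
    have h3 : w - x = 0 := by
      apply h2 x (w - x)
      intro j hj
      have hj' : j = 0 ∨ j = 1 ∨ j = 2 := by omega
      rcases hj' with rfl | rfl | rfl
      · simpa using hx
      · have : x + 1 • (w - x) = w := by rw [one_smul]; abel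
        rw [this]
        exact hwA
      · have : x + 2 • (w - x) = y := by
          ext i
          rw [Pi.add_apply, Pi.smul_apply, Pi.sub_apply, two_smul]
          by_cases h4 : x i = y i
          · simp [hw, flat, h4]
          · have h5 : w i = z i := by simp [hw, flat, h4]
            rw [h5]
            rcases hpm i with h6 | h6
            · exact absurd (sub_left_injective h6) h4
            · linear_combination -h6
        rw [this]
        exact hy
    rw [sub_eq_zero] at h3
    ext i
    by_contra hne
    have h5 : w i = z i := by simp [hw, flat, hne]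
    have h6 : x i = z i := by rw [← h3, h5]
    rcases hpm i with h7 | h7
    · exact hne (sub_left_injective h7)
    · rw [h6, sub_self] at h7
      apply hne
      rw [h6]
      linear_combination -h7
  calc A.card = (A.image f).card := (card_image_of_injOn hinj).symm
    _ ≤ (univ : Finset (Fin n → Fin (p / 2 + 1))).card := card_le_univ _
    _ = (p / 2 + 1) ^ n := by
        rw [card_univ, Fintype.card_fun, Fintype.card_fin, Fintype.card_fin]

lemma two3' : ∀ z x y : ZMod 3, (x = z ∨ x = z + 1) → (x + 1 • y = z ∨ x + 1 • y = z + 1) →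
    (x + 2 • y = z ∨ x + 2 • y = z + 1) → y = 0 := by decide

theorem flat_lower (z : Fin n → ZMod 3) :
    ∃ A : Finset (Fin n → ZMod 3), FlatClosed z A ∧ APF 3 A ∧ A.card = 2 ^ n := by
  refine ⟨Fintype.piFinset fun i => {z i, z i + 1}, ?_, ?_, ?_⟩
  · intro x hx y hy
    rw [Fintype.mem_piFinset] at hx hy ⊢
    intro i
    have hx := hx i
    unfold flat
    split_ifs
    · exact hx
    · simp
  · intro x y hxy
    ext i
    have h0 := hxy 0 (by norm_num)
    have h1 := hxy 1 (by norm_num)
    have h2 := hxy 2 (by norm_num)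
    rw [Fintype.mem_piFinset] at h0 h1 h2
    have h0 := h0 i
    have h1 := h1 i
    have h2 := h2 i
    rw [mem_insert, mem_singleton] at h0 h1 h2
    refine two3' (z i) (x i) (y i) ?_ h1 h2
    simpa using h0
  · rw [Fintype.card_piFinset]
    have : ∀ i, ({z i, z i + 1} : Finset (ZMod 3)).card = 2 := by
      intro i
      rw [card_pair]
      intro h
      have : (1 : ZMod 3) = 0 := by linear_combination -h
      exact absurd this (by decide)
    simp [this]

/-! ### Lattice operations over `F_p` -/

/-- smaller element with respect to `x ↦ a x + b ∈ {0, ..., p - 1}` -/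
def low {p : ℕ} (a b x y : ZMod p) : ZMod p := if (a * x + b).val ≤ (a * y + b).val then x else y

/-- larger element with respect to `x ↦ a x + b ∈ {0, ..., p - 1}` -/
def high {p : ℕ} (a b x y : ZMod p) : ZMod p := if (a * x + b).val ≤ (a * y + b).val then y else x

/-- closed under the coordinatewise minimum and maximum -/
def OrdClosed {p : ℕ} (a b : Fin n → ZMod p) (A : Finset (Fin n → ZMod p)) : Prop :=
  ∀ x ∈ A, ∀ y ∈ A, (fun i => low (a i) (b i) (x i) (y i)) ∈ A ∧
    (fun i => high (a i) (b i) (x i) (y i)) ∈ A

theorem order_upper {p : ℕ} [hp : Fact p.Prime] (a b : Fin n → ZMod p) (ha : ∀ i, a i ≠ 0)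
    (A : Finset (Fin n → ZMod p)) (h1 : OrdClosed a b A) (h2 : APF p A) :
    A.card ≤ (p - 1) ^ n := by
  classical
  have : NeZero p := ⟨hp.out.ne_zero⟩
  let f : (Fin n → ZMod p) → Fin n → Fin p := fun x i => ⟨(a i * x i + b i).val, ZMod.val_lt _⟩
  have hf : Function.Injective f := by
    intro x y hxy
    ext i
    have h3 : (a i * x i + b i).val = (a i * y i + b i).val := congrArg Fin.val (congrFun hxy i)
    have h4 := ZMod.val_injective p h3
    exact mul_left_cancel₀ (ha i) (add_right_cancel h4)
  have hlat : LatClosed (A.image f) := by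
    intro x' hx' y' hy'
    obtain ⟨x, hx, rfl⟩ := mem_image.1 hx'
    obtain ⟨y, hy, rfl⟩ := mem_image.1 hy'
    have h3 := h1 x hx y hy
    constructor
    · refine mem_image.2 ⟨_, h3.1, ?_⟩
      ext i
      simp only [f, low]
      split_ifs with h4
      · rw [min_eq_left (Fin.mk_le_mk.2 h4)]
      · rw [min_eq_right (Fin.mk_le_mk.2 (le_of_not_ge h4))]
    · refine mem_image.2 ⟨_, h3.2, ?_⟩
      ext i
      simp only [f, high]
      split_ifs with h4
      · rw [max_eq_right (Fin.mk_le_mk.2 h4)]
      · rw [max_eq_left (Fin.mk_le_mk.2 (le_of_not_ge h4))]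
  have hline : LineFree (A.image f) := by
    intro I c hI hcon
    obtain ⟨i0, hi0⟩ := hI
    choose x hx hfx using fun t : Fin p => mem_image.1 (hcon t)
    have hval : ∀ t i, (a i * x t i + b i).val = if i ∈ I then t.val else (c i).val := by
      intro t i
      have h3 := congrArg Fin.val (congrFun (hfx t) i)
      simp only [f] at h3
      rw [h3]
      split_ifs <;> rfl
    have hval' : ∀ t i, a i * x t i + b i = if i ∈ I then ((t.val : ℕ) : ZMod p) else ((c i).val : ZMod p) := by
      intro t i
      have h3 := congrArg (fun u : ℕ => (u : ZMod p)) (hval t i)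
      simp only [ZMod.natCast_val, ZMod.cast_id', id] at h3
      rw [h3]
      split_ifs <;> rfl
    let t0 : Fin p := ⟨0, hp.out.pos⟩
    have key : (fun i => if i ∈ I then (a i)⁻¹ else 0 : Fin n → ZMod p) = 0 := by
      apply h2 (x t0)
      intro j hj
      have h3 : x t0 + j • (fun i => if i ∈ I then (a i)⁻¹ else 0 : Fin n → ZMod p) = x ⟨j, hj⟩ := by
        ext i
        apply mul_left_cancel₀ (ha i)
        have h4 := hval' t0 i
        have h5 := hval' ⟨j, hj⟩ i
        rw [Pi.add_apply, Pi.smul_apply, nsmul_eq_mul]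
        by_cases hi : i ∈ I
        · simp only [hi, if_true, t0, Nat.cast_zero] at h4 h5 ⊢
          have h6 : a i * (a i)⁻¹ = 1 := mul_inv_cancel₀ (ha i)
          linear_combination h4 - h5 + (j : ZMod p) * h6
        · simp only [hi, if_false] at h4 h5 ⊢
          linear_combination h4 - h5
      rw [h3]
      exact hx _
    have h3 := congrFun key i0
    simp only [hi0, if_true, Pi.zero_apply, inv_eq_zero] at h3
    exact ha i0 h3
  have := lattice (A.image f) hlat hline
  rwa [Fintype.card_fin, card_image_of_injective _ hf] at this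

theorem order_lower {p : ℕ} [hp : Fact p.Prime] (a b : Fin n → ZMod p) :
    ∃ A : Finset (Fin n → ZMod p), OrdClosed a b A ∧ APF p A ∧ A.card = (p - 1) ^ n := by
  classical
  have : NeZero p := ⟨hp.out.ne_zero⟩
  refine ⟨Fintype.piFinset fun i => univ.erase (-(b i) / a i), ?_, ?_, ?_⟩
  · intro x hx y hy
    rw [Fintype.mem_piFinset] at hx hy
    constructor
    · rw [Fintype.mem_piFinset]
      intro i
      unfold low
      split_ifs
      · exact hx i
      · exact hy i
    · rw [Fintype.mem_piFinset]
      intro i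
      unfold high
      split_ifs
      · exact hy i
      · exact hx i
  · intro x y hxy
    ext i
    by_contra hne
    have hne : y i ≠ 0 := hne
    have h3 := hxy ((-(b i) / a i - x i) / y i).val (ZMod.val_lt _)
    rw [Fintype.mem_piFinset] at h3
    have h4 := h3 i
    rw [mem_erase] at h4
    apply h4.1
    rw [Pi.add_apply, Pi.smul_apply, nsmul_eq_mul, ZMod.natCast_val, ZMod.cast_id', id,
      div_mul_cancel₀ _ hne]
    ring
  · rw [Fintype.card_piFinset]
    simp [ZMod.card]

end Q123.DHJ
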