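import Mathlib

/-! Hall's theorem for relations between two sets with three elements. -/

set_option autoImplicit false

namespace Q123.DHJ

set_option maxRecDepth 100000 in
theorem hall3 : ∀ R : Fin 3 → Fin 3 → Bool,
    (∀ v w, ∃ a b, R a b = true ∧ a ≠ v ∧ b ≠ w) → (∀ v w, ∃ a b, R a b = true ∧ a ≠ v ∧ a ≠ w) →
    (∀ v w, ∃ a b, R a b = true ∧ b ≠ v ∧ b ≠ w) →
    ∃ x y z : Fin 3, x ≠ y ∧ y ≠ z ∧ x ≠ z ∧ R 0 x = true ∧ R 1 y = true ∧ R 2 z = true := by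
  decide

end Q123.DHJ
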