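import Mathlib

/-!
Sublattices of `{0, ..., k - 1} ^ n` without combinatorial lines.
-/

set_option autoImplicit false
set_option linter.unusedSectionVars false

open Finset

namespace Q123.DHJ

variable {ι : Type*} [Fintype ι] [DecidableEq ι] {k : ℕ}

/-- closed under coordinatewise minimum and maximum -/
def LatClosed (A : Finset (ι → Fin k)) : Prop :=
  ∀ x ∈ A, ∀ y ∈ A, (fun i => min (x i) (y i)) ∈ A ∧ (fun i => max (x i) (y i)) ∈ A

/-- no combinatorial line -/
def LineFree (A : Finset (ι → Fin k)) : Prop :=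
  ∀ (I : Finset ι) (b : ι → Fin k), I.Nonempty → ¬ ∀ t : Fin k, (fun i => if i ∈ I then t else b i) ∈ A

lemma LatClosed.filter {A : Finset (ι → Fin k)} (h : LatClosed A) (i : ι) (v : Fin k) :
    LatClosed (A.filter fun x => x i = v) := by
  intro x hx y hy
  rw [mem_filter] at hx hy
  have := h x hx.1 y hy.1
  refine ⟨mem_filter.2 ⟨this.1, ?_⟩, mem_filter.2 ⟨this.2, ?_⟩⟩
  · simp [hx.2, hy.2]
  · simp [hx.2, hy.2]

lemma LineFree.mono {A B : Finset (ι → Fin k)} (h : LineFree A) (hB : B ⊆ A) : LineFree B :=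
  fun I b hI hcon => h I b hI fun t => hB (hcon t)

/-- minima and maxima over finite families -/
lemma LatClosed.exists_inf {A : Finset (ι → Fin k)} (h : LatClosed A) {J : Type*}
    (s : Finset J) (hs : s.Nonempty) (y : J → ι → Fin k) (hy : ∀ j ∈ s, y j ∈ A) :
    ∃ z ∈ A, (∀ j ∈ s, ∀ i, z i ≤ y j i) ∧ ∀ i, ∃ j ∈ s, z i = y j i := by
  classical
  induction hs using Finset.Nonempty.cons_induction with
  | singleton a =>
    exact ⟨y a, hy a (by simp), by simp, by simp⟩
  | cons a s ha hs ih =>
    obtain ⟨z, hz, h1, h2⟩ := ih fun j hj => hy j (mem_cons.2 (Or.inr hj))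
    refine ⟨_, (h _ (hy a (by simp)) z hz).1, ?_, ?_⟩
    · intro j hj i
      rcases mem_cons.1 hj with rfl | hj
      · exact min_le_left _ _
      · exact (min_le_right _ _).trans (h1 j hj i)
    · intro i
      rcases min_choice (y a i) (z i) with h3 | h3
      · exact ⟨a, by simp, h3⟩
      · obtain ⟨j, hj, h4⟩ := h2 i
        exact ⟨j, mem_cons.2 (Or.inr hj), h3.trans h4⟩

lemma LatClosed.exists_sup {A : Finset (ι → Fin k)} (h : LatClosed A) {J : Type*}
    (s : Finset J) (hs : s.Nonempty) (y : J → ι → Fin k) (hy : ∀ j ∈ s, y j ∈ A) :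
    ∃ z ∈ A, (∀ j ∈ s, ∀ i, y j i ≤ z i) ∧ ∀ i, ∃ j ∈ s, z i = y j i := by
  classical
  induction hs using Finset.Nonempty.cons_induction with
  | singleton a =>
    exact ⟨y a, hy a (by simp), by simp, by simp⟩
  | cons a s ha hs ih =>
    obtain ⟨z, hz, h1, h2⟩ := ih fun j hj => hy j (mem_cons.2 (Or.inr hj))
    refine ⟨_, (h _ (hy a (by simp)) z hz).2, ?_, ?_⟩
    · intro j hj i
      rcases mem_cons.1 hj with rfl | hj
      · exact le_max_left _ _
      · exact (h1 j hj i).trans (le_max_right _ _)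
    · intro i
      rcases max_choice (y a i) (z i) with h3 | h3
      · exact ⟨a, by simp, h3⟩
      · obtain ⟨j, hj, h4⟩ := h2 i
        exact ⟨j, mem_cons.2 (Or.inr hj), h3.trans h4⟩

/-- the counting step -/
lemma count {D : Type*} [Fintype D] [DecidableEq D] {A : Finset (ι → D)}
    {i j : ι} (t : D) (P : D → ι) (hP : ∀ w, P w = i ∨ P w = j)
    (hcov : ∀ x ∈ A, ∃ w, w ≠ t ∧ x (P w) = w) {N : ℕ}
    (hN : ∀ l, l = i ∨ l = j → ∀ w, (A.filter fun x => x l = w).card ≤ N) :
    A.card ≤ (Fintype.card D - 1) * N := by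
  classical
  have h1 : A ⊆ (univ.erase t).biUnion fun w => A.filter fun x => x (P w) = w := by
    intro x hx
    obtain ⟨w, hw, hxw⟩ := hcov x hx
    exact mem_biUnion.2 ⟨w, mem_erase.2 ⟨hw, mem_univ _⟩, mem_filter.2 ⟨hx, hxw⟩⟩
  refine (card_le_card h1).trans (card_biUnion_le.trans ?_)
  calc ∑ w ∈ univ.erase t, (A.filter fun x => x (P w) = w).card
      ≤ ∑ w ∈ univ.erase t, N := sum_le_sum fun w _ => hN _ (hP w) w
    _ = (Fintype.card D - 1) * N := by
        rw [sum_const, card_erase_of_mem (mem_univ _), card_univ, smul_eq_mul]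

theorem lattice_aux (m : ℕ) : ∀ (F : Finset ι) (A : Finset (ι → Fin k)), F.card = m →
    (∀ x ∈ A, ∀ y ∈ A, ∀ i, i ∉ F → x i = y i) → LatClosed A → LineFree A →
    A.card ≤ (k - 1) ^ m := by
  classical
  induction m with
  | zero =>
    intro F A hF hA _ _
    rw [pow_zero, card_le_one]
    intro x hx y hy
    ext i
    rw [hA x hx y hy i]
    rw [card_eq_zero.1 hF]
    simp
  | succ m ih =>
    intro F A hF hA hlat hline
    rcases A.eq_empty_or_nonempty with rfl | ⟨b, hb⟩
    · simp
    have hnon : Nonempty (ι → Fin k) := ⟨b⟩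
    -- the split
    have hsplit : ∃ i ∈ F, ∃ j ∈ F, ∃ t : Fin k, ∀ x ∈ A, x i < t ∨ t < x j := by
      by_contra hcon
      push Not at hcon
      have hFne : F.Nonempty := card_pos.1 (by omega)
      apply hline F b hFne
      intro t
      choose! e he1 he2 he3 using fun i (hi : i ∈ F) j (hj : j ∈ F) => hcon i hi j hj t
      have h1 : ∀ i ∈ F, ∃ y ∈ A, t ≤ y i ∧ ∀ j ∈ F, y j ≤ t := by
        intro i hi
        obtain ⟨z, hz, hz1, hz2⟩ := hlat.exists_inf F hFne (fun j => e i j)
          fun j hj => he1 i hi j hj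
        refine ⟨z, hz, ?_, fun j hj => (hz1 j hj j).trans (he3 i hi j hj)⟩
        obtain ⟨j, hj, h2⟩ := hz2 i
        rw [h2]
        exact he2 i hi j hj
      choose! y hy1 hy2 hy3 using h1
      obtain ⟨z, hz, hz1, hz2⟩ := hlat.exists_sup F hFne y hy1
      have h2 : (fun i => if i ∈ F then t else b i) = z := by
        ext i
        by_cases hi : i ∈ F
        · simp only [hi, if_true]
          congr 1
          apply le_antisymm
          · exact (hy2 i hi).trans (hz1 i hi i)
          · obtain ⟨j, hj, h3⟩ := hz2 i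
            rw [h3]
            exact hy3 j hj i hi
        · simp only [hi, if_false]
          rw [hA b hb z hz i hi]
      rw [h2]
      exact hz
    obtain ⟨i, hi, j, hj, t, ht⟩ := hsplit
    have hN : ∀ l, l = i ∨ l = j → ∀ w, (A.filter fun x => x l = w).card ≤ (k - 1) ^ m := by
      intro l hl w
      have hlF : l ∈ F := by rcases hl with rfl | rfl <;> assumption
      refine ih (F.erase l) _ (by rw [card_erase_of_mem hlF]; omega) ?_ (hlat.filter l w)
        (hline.mono (filter_subset _ _))
      intro x hx y hy i' hi'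
      rw [mem_filter] at hx hy
      by_cases h : i' = l
      · rw [h, hx.2, hy.2]
      · exact hA x hx.1 y hy.1 i' fun h2 => hi' (mem_erase.2 ⟨h, h2⟩)
    have := count (i := i) (j := j) (A := A) t (fun w => if w < t then i else j)
      (by intro w; by_cases h : w < t <;> simp [h]) ?_ hN
    · rw [Fintype.card_fin] at this
      rw [pow_succ, mul_comm]
      exact this
    · intro x hx
      rcases ht x hx with h | h
      · refine ⟨x i, h.ne, ?_⟩
        simp [h]
      · refine ⟨x j, h.ne', ?_⟩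
        simp [not_lt.2 h.le]

/-- Sublattices of `{0, ..., k - 1} ^ n` without combinatorial line have at most `(k - 1) ^ n`
elements. -/
theorem lattice (A : Finset (ι → Fin k)) (h1 : LatClosed A) (h2 : LineFree A) :
    A.card ≤ (k - 1) ^ Fintype.card ι :=
  lattice_aux _ univ A card_univ (fun _ _ _ _ i hi => absurd (mem_univ i) hi) h1 h2

end Q123.DHJ
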