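import Pool.Agent.Q123.DHJ.Lattice
import Pool.Agent.Q123.DHJ.Hall

/-!
Subsets of `{0, 1, 2} ^ n` without lines that are closed under majority operations.
-/

set_option autoImplicit false
set_option linter.unusedSectionVars false

open Finset

namespace Q123.DHJ

variable {ι : Type*} [Fintype ι] [DecidableEq ι]

/-- majority operation -/
def Maj {D : Type*} (m : D → D → D → D) : Prop := ∀ x y, m x x y = x ∧ m x y x = x ∧ m y x x = x

/-- closed under the operation `m i` in the coordinate `i` -/
def OpClosed {D : Type*} (m : ι → D → D → D → D) (A : Finset (ι → D)) : Prop :=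
  ∀ x ∈ A, ∀ y ∈ A, ∀ z ∈ A, (fun i => m i (x i) (y i) (z i)) ∈ A

/-- three elements, all different -/
def Rb {D : Type*} (x y z : D) : Prop := x ≠ y ∧ y ≠ z ∧ x ≠ z

/-- no three different elements which are in each coordinate equal or all different -/
def Cap {D : Type*} (A : Finset (ι → D)) : Prop :=
  ∀ x ∈ A, ∀ y ∈ A, ∀ z ∈ A, (∀ i, (x i = y i ∧ y i = z i) ∨ Rb (x i) (y i) (z i)) → x = y

lemma OpClosed.filter {D : Type*} [DecidableEq D] {m : ι → D → D → D → D} (hm : ∀ i, Maj (m i))
    {A : Finset (ι → D)} (h : OpClosed m A) (i : ι) (v : D) :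
    OpClosed m (A.filter fun x => x i = v) := by
  intro x hx y hy z hz
  rw [mem_filter] at hx hy hz
  refine mem_filter.2 ⟨h x hx.1 y hy.1 z hz.1, ?_⟩
  change m i (x i) (y i) (z i) = v
  rw [hx.2, hy.2, hz.2]
  exact (hm i v v).1

/-- Helly property for absorbing conditions -/
lemma helly {D : Type*} {m : ι → D → D → D → D} {A : Finset (ι → D)} (h : OpClosed m A)
    (hne : A.Nonempty) (N : ι → Set D)
    (hN : ∀ i x y z, (x ∈ N i ∧ y ∈ N i) ∨ (x ∈ N i ∧ z ∈ N i) ∨ (y ∈ N i ∧ z ∈ N i) →
      m i x y z ∈ N i) (F : Finset ι)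
    (hpair : ∀ i ∈ F, ∀ j ∈ F, ∃ x ∈ A, x i ∈ N i ∧ x j ∈ N j) (c : ℕ) :
    ∀ G ⊆ F, G.card = c → ∃ x ∈ A, ∀ i ∈ G, x i ∈ N i := by
  induction c using Nat.strong_induction_on with
  | _ c ih =>
  intro G hG hc
  by_cases h2 : 2 < G.card
  · obtain ⟨a, ha, b, hb, d, hd, hab, had, hbd⟩ := two_lt_card.1 h2
    have key : ∀ e ∈ G, ∃ x ∈ A, ∀ i ∈ G.erase e, x i ∈ N i := fun e he =>
      ih _ (by rw [← hc]; exact card_erase_lt_of_mem he) _ ((erase_subset _ _).trans hG) rfl
    obtain ⟨x, hx, hx'⟩ := key a ha
    obtain ⟨y, hy, hy'⟩ := key b hb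
    obtain ⟨z, hz, hz'⟩ := key d hd
    refine ⟨_, h x hx y hy z hz, fun i hi => hN i _ _ _ ?_⟩
    by_cases h1 : i = a
    · right; right
      exact ⟨hy' i (mem_erase.2 ⟨by rw [h1]; exact hab, hi⟩),
        hz' i (mem_erase.2 ⟨by rw [h1]; exact had, hi⟩)⟩
    · by_cases h3 : i = b
      · right; left
        exact ⟨hx' i (mem_erase.2 ⟨h1, hi⟩), hz' i (mem_erase.2 ⟨by rw [h3]; exact hbd, hi⟩)⟩
      · left
        exact ⟨hx' i (mem_erase.2 ⟨h1, hi⟩), hy' i (mem_erase.2 ⟨h3, hi⟩)⟩
  · have h3 : G.card = 0 ∨ G.card = 1 ∨ G.card = 2 := by omega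
    rcases h3 with h3 | h3 | h3
    · obtain ⟨x, hx⟩ := hne
      refine ⟨x, hx, fun i hi => ?_⟩
      rw [card_eq_zero.1 h3] at hi
      simp at hi
    · obtain ⟨a, rfl⟩ := card_eq_one.1 h3
      obtain ⟨x, hx, h4, -⟩ := hpair a (hG (mem_singleton_self a)) a (hG (mem_singleton_self a))
      refine ⟨x, hx, fun i hi => ?_⟩
      rw [mem_singleton.1 hi]
      exact h4
    · obtain ⟨a, b, -, rfl⟩ := card_eq_two.1 h3
      obtain ⟨x, hx, h4, h5⟩ := hpair a (hG (by simp)) b (hG (by simp))
      refine ⟨x, hx, fun i hi => ?_⟩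
      rcases mem_insert.1 hi with rfl | hi
      · exact h4
      · rw [mem_singleton.1 hi]
        exact h5

/-- 2-decomposability -/
lemma decomp {D : Type*} {m : ι → D → D → D → D} (hm : ∀ i, Maj (m i)) {A : Finset (ι → D)}
    (h : OpClosed m A) (hne : A.Nonempty) (z : ι → D)
    (hpair : ∀ i j, ∃ x ∈ A, x i = z i ∧ x j = z j) : z ∈ A := by
  have hN : ∀ (i : ι) (x y w : D), (x ∈ ({z i} : Set D) ∧ y ∈ ({z i} : Set D)) ∨
      (x ∈ ({z i} : Set D) ∧ w ∈ ({z i} : Set D)) ∨ (y ∈ ({z i} : Set D) ∧ w ∈ ({z i} : Set D)) →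
      m i x y w ∈ ({z i} : Set D) := by
    intro i x y w hxyw
    simp only [Set.mem_singleton_iff] at hxyw ⊢
    rcases hxyw with h1 | h1 | h1
    · rw [h1.1, h1.2]
      exact (hm i _ _).1
    · rw [h1.1, h1.2]
      exact (hm i _ _).2.1
    · rw [h1.1, h1.2]
      exact (hm i _ _).2.2
  obtain ⟨x, hx, hx'⟩ := helly h hne (fun i => {z i}) hN univ (fun i _ j _ => hpair i j) _ univ
    subset_rfl rfl
  have : x = z := by
    ext i
    exact hx' i (mem_univ i)
  rwa [← this]

/-- values of a majority operation on three different elements -/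
def Mid {D : Type*} (m : D → D → D → D) : Set D := {d | ∃ a b c, Rb a b c ∧ m a b c = d}

lemma mid_absorb {D : Type*} {m : D → D → D → D} (hm : Maj m) (x y z : D)
    (h : (x ∈ Mid m ∧ y ∈ Mid m) ∨ (x ∈ Mid m ∧ z ∈ Mid m) ∨ (y ∈ Mid m ∧ z ∈ Mid m)) :
    m x y z ∈ Mid m := by
  classical
  by_cases h1 : x = y
  · subst h1
    rw [(hm x z).1]
    tauto
  by_cases h2 : y = z
  · subst h2
    rw [(hm y x).2.2]
    tauto
  by_cases h3 : x = z
  · subst h3
    rw [(hm x y).2.1]
    tauto
  exact ⟨x, y, z, ⟨h1, h2, h3⟩, rfl⟩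

lemma third : ∀ a b c d : Fin 3, Rb a b c → d = a ∨ d = b ∨ d = c := by
  unfold Rb
  decide

theorem majority_aux {m : ι → Fin 3 → Fin 3 → Fin 3 → Fin 3} (hm : ∀ i, Maj (m i)) (c : ℕ) :
    ∀ (F : Finset ι) (A : Finset (ι → Fin 3)), F.card = c →
    (∀ x ∈ A, ∀ y ∈ A, ∀ i, i ∉ F → x i = y i) → OpClosed m A → Cap A → A.card ≤ 2 ^ c := by
  classical
  induction c with
  | zero =>
    intro F A hF hA _ _
    rw [pow_zero, card_le_one]
    intro x hx y hy
    ext i
    rw [hA x hx y hy i]
    rw [card_eq_zero.1 hF]
    simp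
  | succ c ih =>
    intro F A hF hA hcl hcap
    rcases A.eq_empty_or_nonempty with rfl | hne
    · simp
    by_cases hsplit : ∃ i ∈ F, ∃ j ∈ F, ∃ v w : Fin 3, ∀ x ∈ A, x i = v ∨ x j = w
    · obtain ⟨i, hi, j, hj, v, w, hvw⟩ := hsplit
      have hN : ∀ l ∈ F, ∀ w, (A.filter fun x => x l = w).card ≤ 2 ^ c := by
        intro l hlF w
        refine ih (F.erase l) _ (by rw [card_erase_of_mem hlF]; omega) ?_ (hcl.filter hm l w) ?_
        · intro x hx y hy i' hi'
          rw [mem_filter] at hx hy
          by_cases h : i' = l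
          · rw [h, hx.2, hy.2]
          · exact hA x hx.1 y hy.1 i' fun h2 => hi' (mem_erase.2 ⟨h, h2⟩)
        · intro x hx y hy z hz
          exact hcap x (mem_filter.1 hx).1 y (mem_filter.1 hy).1 z (mem_filter.1 hz).1
      have h1 : A ⊆ (A.filter fun x => x i = v) ∪ (A.filter fun x => x j = w) := by
        intro x hx
        rw [mem_union, mem_filter, mem_filter]
        rcases hvw x hx with h | h
        · exact Or.inl ⟨hx, h⟩
        · exact Or.inr ⟨hx, h⟩
      calc A.card ≤ _ := card_le_card h1
        _ ≤ _ := card_union_le _ _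
        _ ≤ 2 ^ c + 2 ^ c := add_le_add (hN i hi v) (hN j hj w)
        _ = 2 ^ (c + 1) := by rw [pow_succ]; ring
    · push Not at hsplit
      -- pairs
      have hpair : ∀ i ∈ F, ∀ j ∈ F, ∃ x ∈ A, x i ∈ Mid (m i) ∧ x j ∈ Mid (m j) := by
        intro i hi j hj
        let R : Fin 3 → Fin 3 → Bool := fun a b => decide (∃ x ∈ A, x i = a ∧ x j = b)
        have hR : ∀ a b, R a b = true ↔ ∃ x ∈ A, x i = a ∧ x j = b := fun a b => by
          simp only [R, decide_eq_true_eq]
        obtain ⟨u, v, w, huv, hvw, huw, h0, h1, h2⟩ := hall3 R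
          (fun v w => by
            obtain ⟨x, hx, h3, h4⟩ := hsplit i hi j hj v w
            exact ⟨x i, x j, (hR _ _).2 ⟨x, hx, rfl, rfl⟩, h3, h4⟩)
          (fun v w => by
            obtain ⟨x, hx, h3, h4⟩ := hsplit i hi i hi v w
            exact ⟨x i, x j, (hR _ _).2 ⟨x, hx, rfl, rfl⟩, h3, h4⟩)
          (fun v w => by
            obtain ⟨x, hx, h3, h4⟩ := hsplit j hj j hj v w
            exact ⟨x i, x j, (hR _ _).2 ⟨x, hx, rfl, rfl⟩, h3, h4⟩)
        obtain ⟨x, hx, hx1, hx2⟩ := (hR _ _).1 h0
        obtain ⟨y, hy, hy1, hy2⟩ := (hR _ _).1 h1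
        obtain ⟨z, hz, hz1, hz2⟩ := (hR _ _).1 h2
        refine ⟨_, hcl x hx y hy z hz, ⟨x i, y i, z i, ?_, rfl⟩, ⟨x j, y j, z j, ?_, rfl⟩⟩
        · rw [hx1, hy1, hz1]
          exact ⟨by decide, by decide, by decide⟩
        · rw [hx2, hy2, hz2]
          exact ⟨huv, hvw, huw⟩
      -- the centre
      obtain ⟨e, he, heF⟩ := helly hcl hne (fun i => Mid (m i))
        (fun i x y z h => mid_absorb (hm i) x y z h) F hpair _ F subset_rfl rfl
      -- supports with respect to the centre
      have hinj : Set.InjOn (fun x : ι → Fin 3 => F.filter fun i => x i ≠ e i) (A : Set (ι → Fin 3)) := by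
        intro x hx y hy hxy
        have hx : x ∈ A := hx
        have hy : y ∈ A := hy
        have hsupp : ∀ i ∈ F, (x i ≠ e i ↔ y i ≠ e i) := by
          intro i hi
          have h1 : i ∈ (F.filter fun i => x i ≠ e i) ↔ i ∈ (F.filter fun i => y i ≠ e i) := by
            have : (F.filter fun i => x i ≠ e i) = F.filter fun i => y i ≠ e i := hxy
            rw [this]
          rw [mem_filter, mem_filter] at h1
          constructor
          · intro h
            exact (h1.1 ⟨hi, h⟩).2
          · intro h
            exact (h1.2 ⟨hi, h⟩).2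
        have hF : ∀ i, x i ≠ y i → i ∈ F := by
          intro i h
          by_contra hi
          exact h (hA x hx y hy i hi)
        have hrb : ∀ i, x i ≠ y i → Rb (x i) (y i) (e i) := by
          intro i h
          have h1 := hsupp i (hF i h)
          have h2 : x i ≠ e i := by
            intro h3
            have h4 : ¬ y i ≠ e i := fun h5 => h1.2 h5 h3
            push Not at h4
            exact h (h3.trans h4.symm)
          exact ⟨h, h1.1 h2, h2⟩
        set z : ι → Fin 3 := fun i => if x i = y i then x i else e i with hz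
        have hzA : z ∈ A := by
          refine decomp hm hcl hne z ?_
          -- one coordinate in the difference and one outside
          have mixed : ∀ i j, x i ≠ y i → x j = y j → ∃ w ∈ A, w i = z i ∧ w j = z j := by
            intro i j hij hj
            have hzi : z i = e i := by simp [hz, hij]
            have hzj : z j = x j := by simp [hz, hj]
            obtain ⟨a, b, d, habd, hmid⟩ := heF i (hF i hij)
            have hr := hrb i hij
            -- choose among x, y, e for each of a, b, d
            have pick : ∀ u : Fin 3, u = x i ∨ u = y i ∨ u = e i := fun u =>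
              third _ _ _ u hr
            let ch : Fin 3 → ι → Fin 3 := fun u => if u = x i then x else if u = y i then y else e
            have chA : ∀ u, ch u ∈ A := by
              intro u
              simp only [ch]
              split_ifs
              · exact hx
              · exact hy
              · exact he
            have chi : ∀ u, ch u i = u := by
              intro u
              simp only [ch]
              split_ifs with h1 h2
              · exact h1.symm
              · exact h2.symm
              · rcases pick u with h3 | h3 | h3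
                · exact absurd h3 h1
                · exact absurd h3 h2
                · exact h3.symm
            have chj : ∀ u, u ≠ e i → ch u j = x j := by
              intro u hu
              simp only [ch]
              split_ifs with h1 h2
              · rfl
              · exact hj.symm
              · rcases pick u with h3 | h3 | h3
                · exact absurd h3 h1
                · exact absurd h3 h2
                · exact absurd h3 hu
            refine ⟨_, hcl _ (chA a) _ (chA b) _ (chA d), ?_, ?_⟩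
            · rw [chi, chi, chi, hmid, hzi]
            · rw [hzj]
              by_cases ha : a = e i
              · rw [chj b (fun h => habd.1 (ha.trans h.symm)), chj d (fun h => habd.2.2 (ha.trans h.symm))]
                exact (hm j _ _).2.2
              · by_cases hb : b = e i
                · rw [chj a ha, chj d (fun h => habd.2.1 (hb.trans h.symm))]
                  exact (hm j _ _).2.1
                · rw [chj a ha, chj b hb]
                  exact (hm j _ _).1
          intro i j
          by_cases hi : x i = y i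
          · by_cases hj : x j = y j
            · exact ⟨x, hx, by simp [hz, hi], by simp [hz, hj]⟩
            · obtain ⟨w, hw, h1, h2⟩ := mixed j i hj hi
              exact ⟨w, hw, h2, h1⟩
          · by_cases hj : x j = y j
            · exact mixed i j hi hj
            · exact ⟨e, he, by simp [hz, hi], by simp [hz, hj]⟩
        refine hcap x hx y hy z hzA fun i => ?_
        by_cases hi : x i = y i
        · left
          exact ⟨hi, by simp [hz, hi]⟩
        · right
          have : z i = e i := by simp [hz, hi]
          rw [this]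
          exact hrb i hi
      calc A.card = (A.image fun x : ι → Fin 3 => F.filter fun i => x i ≠ e i).card :=
            (card_image_of_injOn hinj).symm
        _ ≤ F.powerset.card := by
            refine card_le_card ?_
            intro s hs
            obtain ⟨x, -, rfl⟩ := mem_image.1 hs
            exact mem_powerset.2 (filter_subset _ _)
        _ = 2 ^ (c + 1) := by rw [card_powerset, hF]

/-- Cap sets closed under majority operations have at most `2 ^ n` elements. -/
theorem majority {m : ι → Fin 3 → Fin 3 → Fin 3 → Fin 3} (hm : ∀ i, Maj (m i))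
    (A : Finset (ι → Fin 3)) (h1 : OpClosed m A) (h2 : Cap A) :
    A.card ≤ 2 ^ Fintype.card ι :=
  majority_aux hm _ univ A card_univ (fun _ _ _ _ i hi => absurd (mem_univ i) hi) h1 h2

end Q123.DHJ
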